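import Pool.Agent.H65.PK.Targets
import Pool.Agent.H13.TD1.ARI

/-!
# MP_58ae59_nt, row ARK: the values are integer polynomials in fixed numbers
-/

set_option autoImplicit false

open Polynomial Module Filter Topology

namespace Pool.Agent.H1.PKER

open Pool.Agent.H18.TD (AO Rep Un vl aux th der tc om gam T_REP)
open Pool.Agent.H13.TD1 (Cal cal_of der_rep lin_rep hlog pw opw pow_exp_le)
open Pool.Agent.H65.PK

private theorem ark_rename {ι κ : Type} {x : κ → ℂ} {y : ι → ℂ} (f : ι → κ)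
    (hf : Function.Injective f) (hxy : ∀ i, x (f i) = y i) {δ : ℕ} {L : ℝ} {z : ℂ}
    (h : Rep y δ L z) : Rep x δ L z := by
  classical
  obtain ⟨Φ, h1, h2, h3⟩ := h
  refine ⟨MvPolynomial.rename f Φ, (MvPolynomial.totalDegree_rename_le f Φ).trans h1, ?_, ?_⟩
  · rw [MvPolynomial.support_rename_of_injective hf,
      Finset.sum_image fun a _ b _ hab => Finsupp.mapDomain_injective hf hab]
    simp only [MvPolynomial.coeff_rename_mapDomain f hf]
    exact h2
  · rw [MvPolynomial.aeval_rename]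
    have : x ∘ f = y := funext hxy
    rw [this]
    exact h3

private theorem ark_exp (w : ℂ) (N : ℤ) :
    Complex.exp (w * N) = Complex.exp w ^ N.toNat * Complex.exp (-w) ^ (-N).toNat := by
  rw [← Complex.exp_nat_mul, ← Complex.exp_nat_mul, ← Complex.exp_add]
  congr 1
  have h1 : ((N.toNat : ℤ) : ℂ) - (((-N).toNat : ℤ) : ℂ) = (N : ℂ) := by
    rw [← Int.cast_sub, Int.toNat_sub_toNat_neg]
  rw [Int.cast_natCast, Int.cast_natCast] at h1
  rw [← h1]
  ring

private theorem ark_prod {r l c n N : ℕ} (t : ℂ) (X : Matrix (Fin l) (Fin r) ℂ)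
    (Y : Matrix (Fin r) (Fin c) ℂ) (w : Fin (n + 1) → ℂ) (K0 : Fin (n + 1) → Bool)
    (om : Fin N → ℂ) (K : Cal (xk t X Y w K0 om)) (D0 : ℕ) (E : ℝ)
    (hrep : ∀ (δ : ℕ) (e : Fin ((n + 1) + (n + 1)) → ℕ), ∑ i, e i ≤ δ →
      Rep om 1 (E ^ δ) ((D0 : ℂ) ^ δ *
        ∏ i, (Fin.append (fun k => if K0 k then Complex.exp (w k) else 1)
          (fun k => if K0 k then Complex.exp (-w k) else 1) i) ^ e i))
    (B0 B1 : ℕ) (Z : Fin (n + 1) → ℤ) (h0 : ∀ k, K0 k = false → (Z k).natAbs ≤ B0)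
    (h1 : ∀ k, K0 k = true → (Z k).natAbs ≤ B1) :
    Rep (xk t X Y w K0 om) (1 + (n + 1) * B0) (E ^ ((n + 1) * B1))
      ((D0 : ℂ) ^ ((n + 1) * B1) * Complex.exp (∑ k, w k * (Z k : ℂ))) := by
  have hab : ∀ z : ℤ, z.toNat + (-z).toNat = z.natAbs := fun z => by omega
  set G : Fin (n + 1) → ℂ := fun k => if K0 k then Complex.exp (w k) else 1 with hG
  set G' : Fin (n + 1) → ℂ := fun k => if K0 k then Complex.exp (-w k) else 1 with hG'
  set F : Fin (n + 1) → ℂ := fun k => if K0 k then 1 else Complex.exp (w k) with hF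
  set F' : Fin (n + 1) → ℂ := fun k => if K0 k then 1 else Complex.exp (-w k) with hF'
  set a : Fin (n + 1) → ℕ := fun k => if K0 k then 0 else (Z k).toNat with ha
  set a' : Fin (n + 1) → ℕ := fun k => if K0 k then 0 else (-Z k).toNat with ha'
  set b : Fin (n + 1) → ℕ := fun k => if K0 k then (Z k).toNat else 0 with hb
  set b' : Fin (n + 1) → ℕ := fun k => if K0 k then (-Z k).toNat else 0 with hb'
  have hterm : ∀ k, Complex.exp (w k * (Z k : ℂ)) =
      (F k ^ a k * F' k ^ a' k) * (G k ^ b k * G' k ^ b' k) := by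
    intro k
    rw [ark_exp]
    simp only [hG, hG', hF, hF', ha, ha', hb, hb']
    by_cases hk : K0 k = true
    · simp [hk]
    · have hk' : K0 k = false := by simpa using hk
      simp [hk']
  have hsum : ∑ i, Fin.append b b' i ≤ (n + 1) * B1 := by
    rw [Fin.sum_univ_add]
    simp only [Fin.append_left, Fin.append_right]
    rw [← Finset.sum_add_distrib]
    calc ∑ k, (b k + b' k) ≤ ∑ _k : Fin (n + 1), B1 := by
          refine Finset.sum_le_sum fun k _ => ?_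
          simp only [hb, hb']
          by_cases hk : K0 k = true
          · rw [if_pos hk, if_pos hk, hab]
            exact h1 k hk
          · rw [if_neg hk, if_neg hk]
            exact Nat.zero_le _
      _ = (n + 1) * B1 := by simp
  have r1 := hrep ((n + 1) * B1) (Fin.append b b') hsum
  rw [Fin.prod_univ_add] at r1
  simp only [Fin.append_left, Fin.append_right] at r1
  have r2 : Rep (xk t X Y w K0 om) 1 (E ^ ((n + 1) * B1))
      ((D0 : ℂ) ^ ((n + 1) * B1) * ((∏ k, G k ^ b k) * ∏ k, G' k ^ b' k)) :=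
    ark_rename (fun i => Sum.inr (Sum.inr (Sum.inr (Sum.inr (Sum.inr i)))))
      (fun i j hij => by simpa using hij) (fun i => rfl) r1
  have r3 : Rep (xk t X Y w K0 om) ((n + 1) * B0) 1 (∏ k, (F k ^ a k * F' k ^ a' k)) := by
    have h3 := K.prod (Fin (n + 1)) Finset.univ (fun k => a k * 1 + a' k * 1)
      (fun k => (1 : ℝ) ^ a k * 1 ^ a' k) (fun k => F k ^ a k * F' k ^ a' k)
      (fun k _ => K.mul _ _ _ _ _ _
        (K.pow 1 (a k) 1 _ (K.v (Sum.inr (Sum.inr (Sum.inr (Sum.inl k))))))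
        (K.pow 1 (a' k) 1 _ (K.v (Sum.inr (Sum.inr (Sum.inr (Sum.inr (Sum.inl k))))))))
    refine K.m _ _ _ _ _ ?_ (le_of_eq (by simp)) h3
    calc ∑ k, (a k * 1 + a' k * 1) ≤ ∑ _k : Fin (n + 1), B0 := by
          refine Finset.sum_le_sum fun k _ => ?_
          simp only [ha, ha', mul_one]
          by_cases hk : K0 k = true
          · rw [if_pos hk, if_pos hk]
            exact Nat.zero_le _
          · rw [if_neg hk, if_neg hk, hab]
            exact h0 k (by simpa using hk)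
      _ = (n + 1) * B0 := by simp
  have r4 := K.mul _ _ _ _ _ _ r2 r3
  have e1 : (D0 : ℂ) ^ ((n + 1) * B1) * Complex.exp (∑ k, w k * (Z k : ℂ)) =
      (D0 : ℂ) ^ ((n + 1) * B1) * ((∏ k, G k ^ b k) * ∏ k, G' k ^ b' k) *
        ∏ k, (F k ^ a k * F' k ^ a' k) := by
    rw [Complex.exp_sum, Finset.prod_congr rfl (fun k _ => hterm k), Finset.prod_mul_distrib,
      Finset.prod_mul_distrib (f := fun k => G k ^ b k)]
    ring
  rw [e1]
  refine K.m _ _ _ _ _ le_rfl (le_of_eq (mul_one _)) r4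

private theorem ark_swap {r l c n : ℕ} (X : Matrix (Fin l) (Fin r) ℂ)
    (Y : Matrix (Fin r) (Fin c) ℂ) (w : Fin (n + 1) → ℂ)
    (A : Fin (n + 1) → Matrix (Fin l) (Fin c) ℤ)
    (hXY : ∀ p j, (X * Y) p j = ∑ k, w k * (A k p j : ℂ)) (ν : Fin l → ℕ) (s : Fin c → ℤ) :
    (∑ a, (ν a : ℂ) * ∑ j, (X * Y) a j * (s j : ℂ)) =
      ∑ k, w k * ((∑ a, ∑ j, (ν a : ℤ) * A k a j * s j : ℤ) : ℂ) := by
  have e1 : ∀ k, w k * ((∑ a, ∑ j, (ν a : ℤ) * A k a j * s j : ℤ) : ℂ) =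
      ∑ a, ∑ j, (ν a : ℂ) * (w k * (A k a j : ℂ) * (s j : ℂ)) := by
    intro k
    push_cast
    rw [Finset.mul_sum]
    refine Finset.sum_congr rfl fun a _ => ?_
    rw [Finset.mul_sum]
    refine Finset.sum_congr rfl fun j _ => ?_
    ring
  rw [Finset.sum_congr rfl (fun k _ => e1 k), Finset.sum_comm]
  refine Finset.sum_congr rfl fun a _ => ?_
  rw [Finset.sum_comm, Finset.mul_sum]
  refine Finset.sum_congr rfl fun j _ => ?_
  rw [hXY, Finset.sum_mul, Finset.mul_sum]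

private theorem ark_bound {l c : ℕ} (A : Matrix (Fin l) (Fin c) ℤ) (ν : Fin l → ℕ)
    (s : Fin c → ℤ) (M : ℕ) (h : ∀ a j, A a j ≠ 0 → ν a * (s j).natAbs ≤ M) :
    (∑ a, ∑ j, (ν a : ℤ) * A a j * s j).natAbs ≤ (∑ a, ∑ j, (A a j).natAbs) * M := by
  refine (Int.natAbs_sum_le _ _).trans ?_
  rw [Finset.sum_mul]
  refine Finset.sum_le_sum fun a _ => ?_
  refine (Int.natAbs_sum_le _ _).trans ?_
  rw [Finset.sum_mul]
  refine Finset.sum_le_sum fun j _ => ?_
  rw [Int.natAbs_mul, Int.natAbs_mul, Int.natAbs_natCast]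
  by_cases h0 : A a j = 0
  · rw [h0]
    simp
  · calc ν a * (A a j).natAbs * (s j).natAbs = (A a j).natAbs * (ν a * (s j).natAbs) := by ring
      _ ≤ (A a j).natAbs * M := Nat.mul_le_mul_left _ (h a j h0)

/-- the estimate for one term -/
private theorem ark_term {r l c n N : ℕ} (t : ℂ) (X : Matrix (Fin l) (Fin r) ℂ)
    (Y : Matrix (Fin r) (Fin c) ℂ) (w : Fin (n + 1) → ℂ) (K0 : Fin (n + 1) → Bool)
    (om : Fin N → ℂ) (K : Cal (xk t X Y w K0 om)) {T0 T1 J : ℕ} (T : ℕ) (μ : Fin r → Fin T0)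
    (ν : Fin l → Fin T1) (τ : Fin r → ℕ) (s : Fin c → ℤ) (B : ℝ) (hB : ∀ j, |(s j : ℝ)| ≤ B)
    (Ay At g : ℝ) (hAy : 0 ≤ Ay) (hAt : 0 ≤ At) (hg : 0 ≤ g)
    (hy : 1 + c * B ≤ Real.exp (Ay * g))
    (ht : (T0 : ℝ) + l * (T1 : ℝ) ≤ Real.exp (At * g)) (hT0 : T0 ≤ J)
    (hτ : ∀ i, τ i ≤ T * J) (hB0 : 0 ≤ B) :
    Rep (xk t X Y w K0 om) (r * ((1 + T) * J))
      (Real.exp (r * ((Ay + T * At) * (J * g))))
      (∏ i, der (μ i) (th X ν i) (τ i) (∑ j, Y i j * (s j : ℂ))) := by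
  have hyR : ∀ i, Rep (xk t X Y w K0 om) 1 (1 + c * B) (∑ j, Y i j * (s j : ℂ)) := fun i =>
    K.m _ _ _ _ _ le_rfl (by linarith)
      (lin_rep K (fun j => Y i j) (fun j => K.v (Sum.inr (Sum.inr (Sum.inl (i, j))))) s _ hB)
  have hθR : ∀ (i : Fin r), Rep (xk t X Y w K0 om) 1 (l * (T1 : ℝ)) (th X ν i) := by
    intro i
    have e1 := lin_rep K (fun q => X q i) (fun q => K.v (Sum.inr (Sum.inl (q, i))))
      (fun q => ((ν q : ℕ) : ℤ)) (T1 : ℝ) (fun q => by
        have e2 : ((ν q : ℕ) : ℝ) ≤ (T1 : ℝ) := by exact_mod_cast (ν q).2.le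
        simpa using e2)
    have e3 : th X ν i = ∑ q, X q i * ((((ν q : ℕ) : ℤ)) : ℂ) := by
      unfold th
      refine Finset.sum_congr rfl fun q _ => ?_
      rw [Int.cast_natCast, mul_comm]
    rw [e3]
    exact e1
  have hcB : 0 ≤ (c : ℝ) * B := by positivity
  have hlT : 0 ≤ (l : ℝ) * (T1 : ℝ) := by positivity
  have hder : ∀ i, Rep (xk t X Y w K0 om) ((1 + T) * J) (Real.exp ((Ay + T * At) * (J * g)))
      (der (μ i) (th X ν i) (τ i) (∑ j, Y i j * (s j : ℂ))) := by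
    intro i
    have e1 := der_rep K (by linarith) hlT (hyR i) (hθR i) (μ i) (τ i)
    have hμJ : ((μ i : ℕ)) ≤ J := (μ i).2.le.trans hT0
    refine K.m _ _ _ _ _ ?_ ?_ e1
    · calc ((μ i : ℕ)) + τ i ≤ J + T * J := Nat.add_le_add hμJ (hτ i)
        _ = (1 + T) * J := by ring
    · have e2 : ((μ i : ℕ) : ℝ) ≤ (J : ℝ) := by exact_mod_cast hμJ
      have e3 : ((τ i : ℕ) : ℝ) ≤ (T : ℝ) * (J : ℝ) := by exact_mod_cast hτ i
      have e6 : ((μ i : ℕ) : ℝ) ≤ (T0 : ℝ) := by exact_mod_cast (μ i).2.le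
      have e4 : (1 + c * B) ^ (μ i : ℕ) ≤ Real.exp (Ay * ((J : ℝ) * g)) :=
        (pow_le_pow_left₀ (by linarith) hy _).trans (pow_exp_le (by positivity) e2)
      have e5 : (((μ i : ℕ) : ℝ) + l * (T1 : ℝ)) ^ τ i ≤
          Real.exp (At * ((T : ℝ) * (J : ℝ) * g)) :=
        (pow_le_pow_left₀ (by positivity) (by linarith) _).trans
          (pow_exp_le (by positivity) e3)
      calc (1 + c * B) ^ (μ i : ℕ) * (((μ i : ℕ) : ℝ) + l * (T1 : ℝ)) ^ τ i ≤
          Real.exp (Ay * ((J : ℝ) * g)) * Real.exp (At * ((T : ℝ) * (J : ℝ) * g)) :=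
            mul_le_mul e4 e5 (by positivity) (Real.exp_pos _).le
        _ = _ := by
            rw [← Real.exp_add]
            congr 1
            ring
  have h := K.prod (Fin r) Finset.univ (fun _ => (1 + T) * J)
    (fun _ => Real.exp ((Ay + T * At) * (J * g))) _ (fun i _ => hder i)
  refine K.m _ _ _ _ _ (le_of_eq (by simp)) (le_of_eq ?_) h
  rw [Finset.prod_const, Finset.card_univ, Fintype.card_fin, ← Real.exp_nat_mul]

theorem pf_ARK : T_REP → T_CST → T_ARK := by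
  intro hREP hCST t r l c n X Y w A K0 ω υ κ K g hK hg hXY halg hA1 hA0
  obtain ⟨N, om, D0, E, halgom, hD0, hE, hrep⟩ := hCST ((n + 1) + (n + 1))
    (Fin.append (fun k => if K0 k then Complex.exp (w k) else 1)
      (fun k => if K0 k then Complex.exp (-w k) else 1)) (by
    intro i
    refine Fin.addCases (fun k => ?_) (fun k => ?_) i
    · rw [Fin.append_left]
      by_cases hk : K0 k = true
      · rw [if_pos hk]
        exact halg k hk
      · rw [if_neg hk]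
        exact isAlgebraic_one
    · rw [Fin.append_right]
      by_cases hk : K0 k = true
      · rw [if_pos hk, Complex.exp_neg]
        exact (halg k hk).inv
      · rw [if_neg hk]
        exact isAlgebraic_one)
  refine ⟨N, om, halgom, ?_⟩
  have KK := cal_of hREP (xk t X Y w K0 om)
  set Ω : ℕ := ∑ a, ω a with hΩ
  set Υ : ℕ := ∑ j, υ j with hΥ
  set CA : ℕ := ∑ k, ∑ a, ∑ j, (A k a j).natAbs with hCA
  set Nc : ℕ := (n + 1) * (CA * (r + l)) with hNc
  set Ay : ℝ := ((c * (r + l) : ℕ) : ℝ) + ((1 + Υ : ℕ) : ℝ) with hAy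
  set At : ℝ := (l : ℝ) + ((2 + κ + (1 + Ω) : ℕ) : ℝ) with hAt
  set Cd : ℕ := 1 + Nc + 1 + r * (1 + (r + l)) with hCd
  set Q : ℕ := (2 + κ) * r + (1 + Ω) * l + (2 + κ) with hQ
  have hAy0 : 0 ≤ Ay := by positivity
  have hAt0 : 0 ≤ At := by positivity
  have hlE : 0 ≤ Real.log E := Real.log_nonneg hE
  have hlD : 0 ≤ Real.log D0 := Real.log_nonneg (by exact_mod_cast hD0)
  set R1 : ℝ := 1 + (Nc * Real.log E + r * (Ay + ((r + l : ℕ) : ℝ) * At)) with hR1
  have hR10 : 0 ≤ R1 := by positivity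
  set R : ℝ := Cd + (R1 + Q) + Nc * Real.log D0 with hR
  have hRC : R ≤ (⌈R⌉₊ : ℝ) := Nat.le_ceil R
  have hb1 : (Cd : ℝ) ≤ (⌈R⌉₊ : ℝ) := by
    have : 0 ≤ (R1 + Q) + Nc * Real.log D0 := by positivity
    linarith
  have hb2 : R1 + Q ≤ (⌈R⌉₊ : ℝ) := by
    have : 0 ≤ (Cd : ℝ) + Nc * Real.log D0 := by positivity
    linarith
  have hb3 : Nc * Real.log D0 ≤ (⌈R⌉₊ : ℝ) := by
    have : 0 ≤ (Cd : ℝ) + (R1 + Q) := by positivity
    linarith
  have hb1' : Cd ≤ ⌈R⌉₊ := by exact_mod_cast hb1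
  refine ⟨⌈R⌉₊, by omega, ?_⟩
  intro h hh
  set G : ℕ := g h with hG
  set δ : ℕ := dl g κ h with hδ
  intro p hp0 hp τ hτ s hs
  have hG1 : 1 ≤ G := hg.one h
  have hGK : (G : ℝ) ^ K ≤ Real.log h := hg.log h hh
  have hl := hlog hh
  have h1 : (1 : ℝ) ≤ (h : ℝ) := by exact_mod_cast (by omega : 1 ≤ h)
  have h1' : 1 ≤ h := by omega
  have hGh : G ≤ h := by
    have e1 : (G : ℝ) ≤ (G : ℝ) ^ K := le_self_pow₀ (by exact_mod_cast hG1) (by omega)
    have e2 := Real.log_le_sub_one_of_pos (by linarith : (0 : ℝ) < h)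
    have e3 : (G : ℝ) ≤ h := by linarith
    exact_mod_cast e3
  have hGp : ∀ e : ℕ, G ^ e ≤ h ^ e := fun e => Nat.pow_le_pow_left hGh e
  have hdl : δ = h ^ 2 * G ^ κ := rfl
  have htl : ∀ e : ℕ, tl g e h = h * G ^ e := fun e => rfl
  have hδ1 : 1 ≤ δ := by
    rw [hdl]
    exact Nat.one_le_iff_ne_zero.2 (by positivity)
  have hδh : δ ≤ h ^ (2 + κ) := by
    rw [hdl, pow_add]
    exact Nat.mul_le_mul_left _ (hGp κ)
  have hδh' : (δ : ℝ) ≤ (h : ℝ) ^ (2 + κ) := by exact_mod_cast hδh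
  have htlh : ∀ e : ℕ, tl g e h ≤ h ^ (1 + e) := by
    intro e
    rw [htl, pow_add, pow_one]
    exact Nat.mul_le_mul_left _ (hGp e)
  have hδR : (1 : ℝ) ≤ (δ : ℝ) := by exact_mod_cast hδ1
  have hδL : Real.log h ≤ (δ : ℝ) * Real.log h := by nlinarith
  have hδL0 : 0 ≤ (δ : ℝ) * Real.log h := by linarith
  -- the points
  set B : ℝ := ((r + l : ℕ) : ℝ) * (h : ℝ) ^ (1 + Υ) with hB
  have hB0 : 0 ≤ B := by positivity
  have hsB : ∀ j, |(s j : ℝ)| ≤ B := by
    intro j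
    have e1 : (0 : ℝ) ≤ (s j : ℝ) := by exact_mod_cast (hs j).1
    rw [abs_of_nonneg e1]
    have e2 := (hs j).2
    have e3 : (s j : ℝ) ≤ ((((r : ℤ) + l) * (tl g (υ j) h : ℤ) : ℤ) : ℝ) := by
      exact_mod_cast e2
    have e4 : ((tl g (υ j) h : ℕ) : ℝ) ≤ (h : ℝ) ^ (1 + Υ) := by
      have e5 : υ j ≤ Υ := Finset.single_le_sum (fun _ _ => Nat.zero_le _) (Finset.mem_univ j)
      have e6 : tl g (υ j) h ≤ h ^ (1 + Υ) :=
        (htlh _).trans (Nat.pow_le_pow_right h1' (by omega))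
      exact_mod_cast e6
    have e7 : ((((r : ℤ) + l) * (tl g (υ j) h : ℤ) : ℤ) : ℝ) =
        ((r + l : ℕ) : ℝ) * ((tl g (υ j) h : ℕ) : ℝ) := by push_cast; ring
    rw [e7] at e3
    refine e3.trans ?_
    exact mul_le_mul_of_nonneg_left e4 (Nat.cast_nonneg _)
  have hyE : 1 + c * B ≤ Real.exp (Ay * Real.log h) := by
    refine le_trans ?_ (opw hh (c * (r + l)) (1 + Υ))
    have e1 : (1 : ℝ) ≤ (h : ℝ) ^ (1 + Υ) := one_le_pow₀ h1
    rw [hB]
    push_cast
    nlinarith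
  have htE : (δ : ℝ) + l * ((tl g Ω h : ℕ) : ℝ) ≤ Real.exp (At * Real.log h) := by
    refine le_trans ?_ (opw hh l (2 + κ + (1 + Ω)))
    have e1 : (δ : ℝ) ≤ (h : ℝ) ^ (2 + κ + (1 + Ω)) :=
      hδh'.trans (pow_le_pow_right₀ h1 (by omega))
    have e2 : ((tl g Ω h : ℕ) : ℝ) ≤ (h : ℝ) ^ (2 + κ + (1 + Ω)) := by
      have : tl g Ω h ≤ h ^ (2 + κ + (1 + Ω)) :=
        (htlh Ω).trans (Nat.pow_le_pow_right h1' (by omega))
      exact_mod_cast this
    have e3 : (0 : ℝ) ≤ (l : ℝ) := Nat.cast_nonneg l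
    nlinarith
  -- the exponents
  set B0 : ℕ := CA * ((r + l) * δ) with hB0'
  set B1 : ℕ := CA * ((r + l) * (δ * G ^ K)) with hB1'
  have hN1 : (n + 1) * B0 = Nc * δ := by rw [hB0', hNc]; ring
  have hN2 : (n + 1) * B1 = Nc * (δ * G ^ K) := by rw [hB1', hNc]; ring
  have hN2R : (((n + 1) * B1 : ℕ) : ℝ) ≤ Nc * ((δ : ℝ) * Real.log h) := by
    rw [hN2]
    push_cast
    gcongr
  have hAk : ∀ k, ∑ a, ∑ j, (A k a j).natAbs ≤ CA := fun k =>
    Finset.single_le_sum (f := fun k => ∑ a, ∑ j, (A k a j).natAbs)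
      (fun _ _ => Nat.zero_le _) (Finset.mem_univ k)
  have hexpR : ∀ u : Un r l δ (tl g Ω h) δ, p u ≠ 0 →
      Rep (xk t X Y w K0 om) (1 + (n + 1) * B0) (E ^ ((n + 1) * B1))
      ((D0 : ℂ) ^ ((n + 1) * B1) *
        Complex.exp (∑ a, ((u.2.1 a : ℕ) : ℂ) * ∑ j, (X * Y) a j * (s j : ℂ))) := by
    intro u hu
    have hνs : ∀ a j, (u.2.1 a : ℕ) * (s j).natAbs ≤ (r + l) * (h ^ 2 * G ^ (ω a + υ j)) := by
      intro a j
      have e1 : (u.2.1 a : ℕ) ≤ h * G ^ ω a := (hp0 u hu a).le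
      have e2 : (s j).natAbs ≤ (r + l) * (h * G ^ υ j) := by
        have e3 := (hs j).2
        rw [htl] at e3
        have e4 := (hs j).1
        zify
        rw [abs_of_nonneg e4]
        refine e3.trans (le_of_eq ?_)
        push_cast
        ring
      calc (u.2.1 a : ℕ) * (s j).natAbs ≤ (h * G ^ ω a) * ((r + l) * (h * G ^ υ j)) :=
            Nat.mul_le_mul e1 e2
        _ = _ := by rw [pow_add]; ring
    rw [ark_swap X Y w A hXY]
    refine ark_prod t X Y w K0 om KK D0 E hrep B0 B1 _ (fun k hk => ?_) (fun k hk => ?_)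
    · refine (ark_bound (A k) (fun a => (u.2.1 a : ℕ)) s ((r + l) * δ)
        (fun a j haj => (hνs a j).trans ?_)).trans (Nat.mul_le_mul_right _ (hAk k))
      rw [hdl]
      exact Nat.mul_le_mul_left _ (Nat.mul_le_mul_left _
        (Nat.pow_le_pow_right hG1 (hA0 k a j hk haj)))
    · refine (ark_bound (A k) (fun a => (u.2.1 a : ℕ)) s ((r + l) * (δ * G ^ K))
        (fun a j haj => (hνs a j).trans ?_)).trans (Nat.mul_le_mul_right _ (hAk k))
      rw [hdl, mul_assoc, ← pow_add]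
      exact Nat.mul_le_mul_left _ (Nat.mul_le_mul_left _
        (Nat.pow_le_pow_right hG1 (hA1 k a j haj)))
  -- one term
  have hterm : ∀ u ∈ (Finset.univ : Finset (Un r l δ (tl g Ω h) δ)),
      Rep (xk t X Y w K0 om) (Cd * δ) (Real.exp (R1 * ((δ : ℝ) * Real.log h)))
        ((D0 : ℂ) ^ ((n + 1) * B1) * ((p u : ℂ) * t ^ (u.2.2 : ℕ) *
          Complex.exp (∑ a, ((u.2.1 a : ℕ) : ℂ) * ∑ j, (X * Y) a j * (s j : ℂ)) *
          ∏ i, der (u.1 i) (th X u.2.1 i) (τ i) (∑ j, Y i j * (s j : ℂ)))) := by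
    intro u _
    by_cases hu : p u = 0
    · rw [hu]
      have e1 := KK.c 0
      refine KK.m 0 _ |((0 : ℤ) : ℝ)| _ _ (Nat.zero_le _) ?_ ?_
      · rw [Int.cast_zero, abs_zero]
        exact (Real.exp_pos _).le
      · simpa using e1
    · have r1 := KK.c (p u)
      have r2 := KK.pow 1 (u.2.2 : ℕ) 1 t (KK.v (Sum.inl ()))
      have r3 := hexpR u hu
      have r4 := ark_term t X Y w K0 om KK (r + l) u.1 u.2.1 τ s B hsB Ay At (Real.log h)
        hAy0 hAt0 (by linarith) hyE htE le_rfl (fun i => hτ i) hB0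
      have r5 := KK.mul _ _ _ _ _ _ (KK.mul _ _ _ _ _ _ (KK.mul _ _ _ _ _ _ r1 r2) r3) r4
      have e0 : (D0 : ℂ) ^ ((n + 1) * B1) * ((p u : ℂ) * t ^ (u.2.2 : ℕ) *
          Complex.exp (∑ a, ((u.2.1 a : ℕ) : ℂ) * ∑ j, (X * Y) a j * (s j : ℂ)) *
          ∏ i, der (u.1 i) (th X u.2.1 i) (τ i) (∑ j, Y i j * (s j : ℂ))) =
          (p u : ℂ) * t ^ (u.2.2 : ℕ) * ((D0 : ℂ) ^ ((n + 1) * B1) *
          Complex.exp (∑ a, ((u.2.1 a : ℕ) : ℂ) * ∑ j, (X * Y) a j * (s j : ℂ))) *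
          ∏ i, der (u.1 i) (th X u.2.1 i) (τ i) (∑ j, Y i j * (s j : ℂ)) := by ring
      rw [e0]
      refine KK.m _ _ _ _ _ ?_ ?_ r5
      · have e2 := (u.2.2).2.le
        rw [hN1, hCd]
        nlinarith
      · have e2 : |(p u : ℝ)| ≤ Real.exp (1 * ((δ : ℝ) * Real.log h)) := by
          rw [one_mul]
          exact hp u
        have e3 : E ^ ((n + 1) * B1) ≤
            Real.exp (Nc * Real.log E * ((δ : ℝ) * Real.log h)) := by
          have e4 : E = Real.exp (Real.log E) := (Real.exp_log (by linarith)).symm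
          calc E ^ ((n + 1) * B1) = Real.exp ((((n + 1) * B1 : ℕ) : ℝ) * Real.log E) := by
                rw [Real.exp_nat_mul, Real.exp_log (by linarith)]
            _ ≤ Real.exp (Nc * Real.log E * ((δ : ℝ) * Real.log h)) := by
                refine Real.exp_le_exp.2 ?_
                calc (((n + 1) * B1 : ℕ) : ℝ) * Real.log E ≤
                    (Nc * ((δ : ℝ) * Real.log h)) * Real.log E :=
                      mul_le_mul_of_nonneg_right hN2R hlE
                  _ = _ := by ring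
        rw [one_pow, mul_one]
        calc |(p u : ℝ)| * E ^ ((n + 1) * B1) *
            Real.exp (r * ((Ay + ((r + l : ℕ) : ℝ) * At) * ((δ : ℝ) * Real.log h))) ≤
            Real.exp (1 * ((δ : ℝ) * Real.log h)) *
              Real.exp (Nc * Real.log E * ((δ : ℝ) * Real.log h)) *
              Real.exp (r * ((Ay + ((r + l : ℕ) : ℝ) * At) * ((δ : ℝ) * Real.log h))) := by
              gcongr
          _ = _ := by
              rw [← Real.exp_add, ← Real.exp_add, hR1]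
              congr 1
              ring
  refine ⟨D0 ^ ((n + 1) * B1), Nat.one_le_iff_ne_zero.2 (by positivity), ?_, ?_⟩
  · have hD0R : (1 : ℝ) ≤ (D0 : ℝ) := by exact_mod_cast hD0
    push_cast
    calc (D0 : ℝ) ^ ((n + 1) * B1) =
        Real.exp ((((n + 1) * B1 : ℕ) : ℝ) * Real.log D0) := by
          rw [Real.exp_nat_mul, Real.exp_log (by linarith)]
      _ ≤ Real.exp ((⌈R⌉₊ : ℝ) * ((δ : ℝ) * Real.log h)) := by
          refine Real.exp_le_exp.2 ?_
          calc (((n + 1) * B1 : ℕ) : ℝ) * Real.log D0 ≤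
              (Nc * ((δ : ℝ) * Real.log h)) * Real.log D0 :=
                mul_le_mul_of_nonneg_right hN2R hlD
            _ = (Nc * Real.log D0) * ((δ : ℝ) * Real.log h) := by ring
            _ ≤ _ := mul_le_mul_of_nonneg_right hb3 hδL0
  · have hfin := KK.sum _ Finset.univ _ _ _ hterm
    rw [← Finset.mul_sum] at hfin
    have e0 : (((D0 ^ ((n + 1) * B1) : ℕ)) : ℂ) * vl t X Y p τ s =
        (D0 : ℂ) ^ ((n + 1) * B1) * ∑ u : Un r l δ (tl g Ω h) δ, ((p u : ℂ) * t ^ (u.2.2 : ℕ) *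
          Complex.exp (∑ a, ((u.2.1 a : ℕ) : ℂ) * ∑ j, (X * Y) a j * (s j : ℂ)) *
          ∏ i, der (u.1 i) (th X u.2.1 i) (τ i) (∑ j, Y i j * (s j : ℂ))) := by
      push_cast
      rfl
    rw [e0]
    refine KK.m _ _ _ _ _ (Nat.mul_le_mul_right _ hb1') ?_ hfin
    rw [Finset.sum_const, nsmul_eq_mul]
    have hcard : ((Finset.univ : Finset (Un r l δ (tl g Ω h) δ)).card : ℝ) ≤
        (h : ℝ) ^ Q := by
      rw [Finset.card_univ]
      simp only [Fintype.card_prod, Fintype.card_fun, Fintype.card_fin]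
      have e1 : δ ^ r * ((tl g Ω h) ^ l * δ) ≤
          (h ^ (2 + κ)) ^ r * ((h ^ (1 + Ω)) ^ l * h ^ (2 + κ)) :=
        Nat.mul_le_mul (Nat.pow_le_pow_left hδh r)
          (Nat.mul_le_mul (Nat.pow_le_pow_left (htlh Ω) l) hδh)
      have e2 : (h ^ (2 + κ)) ^ r * ((h ^ (1 + Ω)) ^ l * h ^ (2 + κ)) = h ^ Q := by
        rw [hQ, ← pow_mul, ← pow_mul, ← pow_add, ← pow_add]
        congr 1
        ring
      rw [e2] at e1
      exact_mod_cast e1
    calc _ ≤ (h : ℝ) ^ Q * Real.exp (R1 * ((δ : ℝ) * Real.log h)) :=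
          mul_le_mul_of_nonneg_right hcard (Real.exp_pos _).le
      _ = Real.exp (Q * Real.log h + R1 * ((δ : ℝ) * Real.log h)) := by
          rw [pw hh, ← Real.exp_add]
      _ ≤ Real.exp ((⌈R⌉₊ : ℝ) * ((δ : ℝ) * Real.log h)) := by
          refine Real.exp_le_exp.2 ?_
          have e1 : (Q : ℝ) * Real.log h ≤ Q * ((δ : ℝ) * Real.log h) :=
            mul_le_mul_of_nonneg_left hδL (Nat.cast_nonneg _)
          calc (Q : ℝ) * Real.log h + R1 * ((δ : ℝ) * Real.log h) ≤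
              (R1 + Q) * ((δ : ℝ) * Real.log h) := by linarith
            _ ≤ _ := mul_le_mul_of_nonneg_right hb2 hδL0

end Pool.Agent.H1.PKER
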